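import Pool.Agent.helper73.AD.GW1
import Pool.Agent.helper73.AD.GWL

/-!
Module WH1 of the Wolpert part (project ad): derivative of the matrices of the arcs.
-/

set_option linter.all false

open scoped MatrixGroups LinearAlgebra.Projectivization BigOperators
open Matrix UpperHalfPlane
open Pool.Agent.helper73.AD (PS Word Arc sg Cone bs)

namespace AdSBend

/-- derivative of `Dm` along a curve -/
theorem WH1_Dm {x : ℝ → ℝ} {x' : ℝ} (hx : HasDerivAt x x' 0) :
    HasD (fun s : ℝ => (Dm (x s)).1) ((x' / 2) • (hM * (Dm (x 0)).1)) := by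
  have h1 : HasDerivAt (fun s => Real.exp (x s / 2)) (Real.exp (x 0 / 2) * (x' / 2)) 0 :=
    (hx.div_const 2).exp
  have h2 : HasDerivAt (fun s => Real.exp (-(x s / 2))) (Real.exp (-(x 0 / 2)) * (-(x' / 2))) 0 :=
    (hx.div_const 2).neg.exp
  intro i j
  fin_cases i <;> fin_cases j
  · refine (h1.congr_deriv ?_)
    simp [hM, Dm, Matrix.mul_apply, Fin.sum_univ_two]; ring
  · refine ((hasDerivAt_const (0 : ℝ) (0 : ℝ)).congr_deriv ?_)
    simp [hM, Dm, Matrix.mul_apply, Fin.sum_univ_two]
  · refine ((hasDerivAt_const (0 : ℝ) (0 : ℝ)).congr_deriv ?_)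
    simp [hM, Dm, Matrix.mul_apply, Fin.sum_univ_two]
  · refine (h2.congr_deriv ?_)
    simp [hM, Dm, Matrix.mul_apply, Fin.sum_univ_two]; ring

/-- derivative of `Em` along a curve -/
theorem WH1_Em {x : ℝ → ℝ} {x' : ℝ} (hx : HasDerivAt x x' 0) :
    HasD (fun s : ℝ => (Em (x s)).1) ((x' / 2) • (eM * (Em (x 0)).1)) := by
  have h1 : HasDerivAt (fun s => Real.cosh (x s / 2)) (Real.sinh (x 0 / 2) * (x' / 2)) 0 :=
    (hx.div_const 2).cosh
  have h2 : HasDerivAt (fun s => Real.sinh (x s / 2)) (Real.cosh (x 0 / 2) * (x' / 2)) 0 :=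
    (hx.div_const 2).sinh
  intro i j
  fin_cases i <;> fin_cases j
  · refine (h1.congr_deriv ?_)
    simp [eM, Em, Matrix.mul_apply, Fin.sum_univ_two]; ring
  · refine (h2.congr_deriv ?_)
    simp [eM, Em, Matrix.mul_apply, Fin.sum_univ_two]; ring
  · refine (h2.congr_deriv ?_)
    simp [eM, Em, Matrix.mul_apply, Fin.sum_univ_two]; ring
  · refine (h1.congr_deriv ?_)
    simp [eM, Em, Matrix.mul_apply, Fin.sum_univ_two]; ring

theorem WH1_inv (g : SL(2, ℝ)) : (g⁻¹).1 * g.1 = 1 := by
  have : (g⁻¹).1 * g.1 = (g⁻¹ * g : SL(2, ℝ)).1 := rfl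
  rw [this, inv_mul_cancel]; rfl

theorem WH1_wave (E D E' R e h : M2) (EI DI : M2) (hE : EI * E = 1) (hD : DI * D = 1)
    (d' x' : ℝ) :
    -(((((d' / 2) • (e * E)) * D + E * ((-x' / 2) • (h * D))) * E' +
      (E * D) * ((-d' / 2) • (e * E'))) * R) =
    (1 / 2 : ℝ) • ((d' • e - x' • (E * h * EI) - d' • (E * D * e * (DI * EI))) *
      (-(E * D * E' * R))) := by
  have k1 : E * h * EI * (E * D * E' * R) = E * h * D * E' * R := by
    calc E * h * EI * (E * D * E' * R) = E * h * (EI * E) * D * E' * R := by noncomm_ring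
      _ = _ := by rw [hE]; noncomm_ring
  have k2 : E * D * e * (DI * EI) * (E * D * E' * R) = E * D * e * E' * R := by
    calc E * D * e * (DI * EI) * (E * D * E' * R) = E * D * e * (DI * (EI * E) * D) * E' * R := by
          noncomm_ring
      _ = _ := by rw [hE, mul_one, hD]; noncomm_ring
  have k3 : (d' • e - x' • (E * h * EI) - d' • (E * D * e * (DI * EI))) * (-(E * D * E' * R)) =
      -(d' • (e * (E * D * E' * R))) + x' • (E * h * EI * (E * D * E' * R)) +
        d' • (E * D * e * (DI * EI) * (E * D * E' * R)) := by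
    simp only [sub_mul, mul_neg, smul_mul_assoc]
    abel
  rw [k3, k1, k2]
  have a1 : ((d' / 2) • (e * E)) * D = (d' / 2) • (e * E * D) := smul_mul_assoc _ _ _
  have a2 : E * ((-x' / 2) • (h * D)) = (-x' / 2) • (E * (h * D)) := mul_smul_comm _ _ _
  have a3 : (E * D) * ((-d' / 2) • (e * E')) = (-d' / 2) • (E * D * (e * E')) :=
    mul_smul_comm _ _ _
  rw [a1, a2, a3]
  simp only [add_mul, smul_mul_assoc, smul_add, smul_neg, smul_smul, neg_add_rev]
  have b1 : e * E * D * E' * R = e * (E * D * E' * R) := by noncomm_ring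
  have b2 : E * (h * D) * E' * R = E * h * D * E' * R := by noncomm_ring
  have b3 : E * D * (e * E') * R = E * D * e * E' * R := by noncomm_ring
  rw [b1, b2, b3]
  module

/-- WH1 -/
theorem WH1 (h4 : WA4_stmt) : WH1_stmt := by
  refine ⟨?_, ?_⟩
  · intro J A q x' hq
    have hsd : ∀ a b c : J, HasDerivAt (fun s : ℝ => sd ((q + s • x') a) ((q + s • x') b)
        ((q + s • x') c)) (dsd (q a) (q b) (q c) (x' a) (x' b) (x' c)) 0 := by
      intro a b c
      have := (h4.2.2 (q a) (q b) (q c) (x' a) (x' b) (x' c) (hq a) (hq b) (hq c)).1.hasDerivAt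
      exact this
    cases A with
    | seam a b c =>
      have h := WH1_Em (hsd a b c)
      have e : (1 / 2 : ℝ) • (arcD (Arc.seam a b c) q x' * (arcM (Arc.seam a b c) q).1) =
          (dsd (q a) (q b) (q c) (x' a) (x' b) (x' c) / 2) •
            (eM * (Em (sd ((q + (0 : ℝ) • x') a) ((q + (0 : ℝ) • x') b)
              ((q + (0 : ℝ) • x') c))).1) := by
        simp only [arcD, arcM, zero_smul, add_zero, smul_mul_assoc, smul_smul]
        congr 1
        ring
      rw [e]
      exact h
    | wave a b c =>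
      have h1 := WH1_Em (hsd a b c)
      have hb : HasDerivAt (fun s : ℝ => -((q + s • x') b)) (-(x' b)) 0 := by
        have h0 : HasDerivAt (fun s : ℝ => q b + s * x' b) (x' b) 0 := by
          simpa using ((hasDerivAt_id (0 : ℝ)).mul_const (x' b)).const_add (q b)
        exact h0.neg
      have h2 := WH1_Dm hb
      have h3 := WH1_Em (hsd a b c).neg
      have h5 := (((h1.mul h2).mul h3).mul (HasD.const Rm.1)).neg
      have e0 : q + (0 : ℝ) • x' = q := by simp
      simp only [Pi.neg_apply, e0, mul_zero, add_zero] at h5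
      have e : (1 / 2 : ℝ) • (arcD (Arc.wave a b c) q x' * (arcM (Arc.wave a b c) q).1) =
          -(((((dsd (q a) (q b) (q c) (x' a) (x' b) (x' c) / 2) • (eM *
            (Em (sd (q a) (q b) (q c))).1)) * (Dm (-q b)).1 +
            (Em (sd (q a) (q b) (q c))).1 * ((-x' b / 2) • (hM * (Dm (-q b)).1))) *
            (Em (-sd (q a) (q b) (q c))).1 +
          ((Em (sd (q a) (q b) (q c))).1 * (Dm (-q b)).1) *
            ((-dsd (q a) (q b) (q c) (x' a) (x' b) (x' c) / 2) • (eM *
            (Em (-sd (q a) (q b) (q c))).1))) * Rm.1) := by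
        rw [WH1_wave _ _ _ _ _ _ _ _ (WH1_inv (Em (sd (q a) (q b) (q c))))
          (WH1_inv (Dm (-q b)))]
        have e1 : ((Em (sd (q a) (q b) (q c)) * Dm (-q b) : SL(2, ℝ))⁻¹).1 =
            ((Dm (-q b))⁻¹).1 * ((Em (sd (q a) (q b) (q c)))⁻¹).1 := by
          rw [_root_.mul_inv_rev]; rfl
        simp only [arcD, arcM, cj, e1]
        rfl
      rw [e]
      exact h5
  · intro t t'
    have hx : HasDerivAt (fun s : ℝ => t + s * t') t' 0 := by
      simpa using ((hasDerivAt_id (0 : ℝ)).mul_const t').const_add t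
    have h := WH1_Dm hx
    simpa using h

end AdSBend
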