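import Pool.Agent.helper73.AD.GW1

/-!
Module WH2 of the Wolpert part (project ad): the variation of an arc in the frame at its start.
-/

set_option linter.all false

open scoped MatrixGroups LinearAlgebra.Projectivization BigOperators
open Matrix UpperHalfPlane
open Pool.Agent.helper73.AD (PS Word Arc sg Cone)

namespace AdSBend

noncomputable section

open LeafSystem

theorem WH2_hex {Γ : Subgroup SL(2, ℝ)} (hΓ : IsClosedSurfaceGroup Γ) (hHX1 : HX1_stmt)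
    (S : LeafSystem Γ) (p u : Bd × Bd) (h : S.Seam p u) : ∃ x, S.Hex p u x := by
  obtain ⟨r, h | h⟩ := h
  · exact ⟨r, h⟩
  · obtain ⟨h1, h2, _⟩ := hHX1 Γ hΓ S
    exact ⟨_, h2 _ _ _ (h1 _ _ _ h)⟩

theorem WH2_cj_mul (g h : SL(2, ℝ)) (X : M2) : cj (g * h) X = cj g (cj h X) := by
  unfold cj
  have e1 : (g * h).1 = g.1 * h.1 := rfl
  have e2 : ((g * h)⁻¹).1 = (h⁻¹).1 * (g⁻¹).1 := by rw [_root_.mul_inv_rev]; rfl
  rw [e1, e2]
  noncomm_ring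

theorem WH2_cj_PEq {g h : SL(2, ℝ)} (hgh : PEq g h) (X : M2) : cj g X = cj h X := by
  rcases hgh with rfl | rfl
  · rfl
  · unfold cj
    have e1 : (-h).1 = -h.1 := rfl
    have e2 : ((-h)⁻¹).1 = -(h⁻¹).1 := by
      rw [show (-h)⁻¹ = -(h⁻¹) from inv_neg]; rfl
    rw [e1, e2]
    noncomm_ring

theorem WH2_cj_neg (g : SL(2, ℝ)) (X : M2) : cj g (-X) = -cj g X := by
  unfold cj; noncomm_ring

theorem WH2_cj_smul (g : SL(2, ℝ)) (t : ℝ) (X : M2) : cj g (t • X) = t • cj g X := by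
  unfold cj; rw [mul_smul_comm, smul_mul_assoc]

theorem WH2_cj_sub (g : SL(2, ℝ)) (X Y : M2) : cj g (X - Y) = cj g X - cj g Y := by
  unfold cj; noncomm_ring

theorem WH2_Rm_inv : (Rm⁻¹).1 = !![0, -1; 1, 0] := by
  rw [Matrix.SpecialLinearGroup.coe_inv, Matrix.adjugate_fin_two]
  ext i j
  fin_cases i <;> fin_cases j <;> simp [Rm]

theorem WH2_Rm_h : cj Rm hM = -hM := by
  unfold cj
  rw [WH2_Rm_inv]
  ext i j
  fin_cases i <;> fin_cases j <;> simp [Rm, hM, Matrix.mul_apply, Fin.sum_univ_two]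

theorem WH2_Rm_e : cj Rm eM = -eM := by
  unfold cj
  rw [WH2_Rm_inv]
  ext i j
  fin_cases i <;> fin_cases j <;> simp [Rm, eM, Matrix.mul_apply, Fin.sum_univ_two]

theorem WH2_PEq_mul_left (g : SL(2, ℝ)) {a b : SL(2, ℝ)} (h : PEq a b) :
    PEq (g * a) (g * b) := by
  rcases h with rfl | rfl
  · exact Or.inl rfl
  · right; rw [mul_neg]

theorem WH2_PEq_pos (g : SL(2, ℝ)) : PEq g (pos g) := by
  unfold pos
  split_ifs
  · exact Or.inl rfl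
  · right; rw [neg_neg]

/-- WH2 -/
theorem WH2 (hGM1 : GM1_stmt) (hHX1 : HX1_stmt) (hFA0 : FA0_stmt) (hFB1 : FB1_stmt)
    (hFB4 : FB4_stmt) (hWA1 : WA1_stmt) : WH2_stmt := by
  intro Γ J K c x' i F hF
  have hΓ := c.hΓ
  obtain ⟨hx1, hx2, hx3, hx4, hx5, hx6, hx7⟩ := hHX1 Γ hΓ c.X.S
  obtain ⟨fb1, fb2, fb3, fb4, fb5⟩ := hFB1 Γ hΓ c.X.S c.ρ c.adm
  obtain ⟨wa1, wa2⟩ := hWA1 Γ hΓ c.X.S c.ρ c.adm
  -- the seam vector at the start
  have hs : sV Γ c.ρ (c.W.A (i.val : ℤ)) (c.W.U (i.val : ℤ)) = cj F eM := by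
    obtain ⟨x, hx⟩ := WH2_hex hΓ hHX1 c.X.S _ _ (c.W.seamU (i.val : ℤ))
    obtain ⟨_, _, _, _, _, _, _, _, _, _, _, hlast⟩ := wa2 _ _ _ hx
    exact (hlast F hF).2
  unfold WCtx.mu
  have harc := c.W.arc i
  have hA : c.w.A i = (c.X.w c.k).A i := rfl
  rcases harc with ⟨x, _, hu, _, ha⟩ | ⟨x, y, hhex, hsw, hu, _, ha⟩
  · rw [hA, ha]
    simp only [arcD, arcV]
    rw [WH2_cj_smul, hs]
  · rw [hA, ha]
    simp only [arcD, arcV]
    rw [WH2_cj_sub, WH2_cj_sub, WH2_cj_smul, WH2_cj_smul, WH2_cj_smul, hs]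
    set p := c.W.A (i.val : ℤ) with hp
    have hpL : p ∈ c.X.S.L := (c.W.mem _).1
    have hhex2 : c.X.S.Hex p y (ga (gen Γ p) x) := hx2 _ _ _ hhex
    have hhex3 : c.X.S.Hex y p x := hx1 _ _ _ (hx1 _ _ _ hhex)
    have hxL : x ∈ c.X.S.L := hhex.1.2.1
    have hyL : y ∈ c.X.S.L := hhex2.1.2.1
    have hgp : IsGen Γ p (gen Γ p) := hGM1 Γ hΓ p (c.X.S.closed p hpL)
    have hgy : IsGen Γ y (gen Γ y) := hGM1 Γ hΓ y (c.X.S.closed y hyL)
    have hfixy : ga (gen Γ y) y = y := Prod.ext hgy.2.1.2.1 hgy.2.1.2.2.1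
    obtain ⟨_, hlen⟩ := (hFB4 Γ hΓ c.X.S J c.X.D c.ρ c.adm).2.2.1 c.z c.coord
    have lp : c.z.1 (c.X.D.cls p) = len (c.ρ (gen Γ p)) := hlen p hpL
    have ly : c.z.1 (c.X.D.cls y) = len (c.ρ (gen Γ y)) := hlen y hyL
    have lx : c.z.1 (c.X.D.cls x) = len (c.ρ (gen Γ x)) := hlen x hxL
    have lx' : len (c.ρ (gen Γ (ga (gen Γ p) x))) = len (c.ρ (gen Γ x)) :=
      (fb5 x hxL).2.2 _ hgp.1
    have hF' : IsSeamFrame (c.ρ (gen Γ p)) (c.ρ (gen Γ y)) F := by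
      have := hF
      rw [hu] at this
      exact this
    obtain ⟨_, hK, _⟩ := fb4 _ _ _ F hhex2 hF'
    rw [lx', ← lp, ← ly, ← lx] at hK
    set d : ℝ := sd (c.z.1 (c.X.D.cls p)) (c.z.1 (c.X.D.cls y)) (c.z.1 (c.X.D.cls x)) with hd
    set Kf : SL(2, ℝ) := F * Em d * Rm with hKf
    have hKs : IsSeamFrame (c.ρ (gen Γ y)) (c.ρ (gen Γ p)) Kf := ⟨d, hK⟩
    -- the unit vector of `y`
    have hay : aV Γ c.ρ y = -cj (F * Em d) hM := by
      obtain ⟨_, _, _, _, _, _, _, _, _, _, _, hlast⟩ := wa2 _ _ _ hhex3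
      rw [(hlast Kf hKs).1, hKf, WH2_cj_mul, WH2_Rm_h, WH2_cj_neg]
    -- the seam vector at `y`
    have hsy : sV Γ c.ρ y (sw (c.W.A ((i.val : ℤ) + 1))) =
        -cj (F * (Em d * Dm (-c.z.1 (c.X.D.cls y)))) eM := by
      have h1 : c.X.S.Hex (ga (gen Γ y) y) (ga (gen Γ y) p) (ga (gen Γ y) x) :=
        hx4 _ hgy.1 _ _ _ hhex3
      have h2 := fb3 _ hgy.1 y p Kf ⟨x, Or.inl hhex3⟩ hKs
      obtain ⟨_, _, _, _, _, _, _, _, _, _, _, hlast⟩ := wa2 _ _ _ h1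
      have h3 := (hlast _ h2).2
      have hsw' : sw (c.W.A ((i.val : ℤ) + 1)) = ga (gen Γ y) p := hsw
      rw [hfixy] at h3
      rw [hsw', h3]
      have h4 : PEq (c.ρ (gen Γ y) * Kf) (F * (Em d * Dm (-c.z.1 (c.X.D.cls y))) * Rm) := by
        have h5 : pos (c.ρ (gen Γ y)) * Kf = Kf * Dm (len (c.ρ (gen Γ y))) := by
          rw [hK.2.1]; group
        have h6 : Kf * Dm (len (c.ρ (gen Γ y))) =
            F * (Em d * Dm (-c.z.1 (c.X.D.cls y))) * Rm := by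
          rw [hKf, ← ly]
          have := hFA0.2.2.2.2.2.2.2.2.1 (c.z.1 (c.X.D.cls y))
          rw [mul_assoc (F * Em d), this]
          group
        rw [← h6, ← h5]
        rcases WH2_PEq_pos (c.ρ (gen Γ y)) with h | h
        · exact Or.inl (congrArg (fun g => g * Kf) h)
        · exact Or.inr ((congrArg (fun g => g * Kf) h).trans (neg_mul _ _))
      rw [WH2_cj_PEq h4, WH2_cj_mul, WH2_Rm_e, WH2_cj_neg]
    have hu' : c.W.U (i.val : ℤ) = y := hu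
    rw [hu', hay, hsy, ← WH2_cj_mul, ← WH2_cj_mul]
    module

end

end AdSBend
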