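import Pool.Agent.helper73.AD.GW1

/-!
Module WH3b of the Wolpert part (project ad): the trace formula with the matrices of the arcs.
-/

open scoped MatrixGroups LinearAlgebra.Projectivization BigOperators
open Matrix UpperHalfPlane
open Pool.Agent.helper73.AD (PS Word Arc sg Cone bs)

namespace AdSBend

/-- a matrix with Boolean indices -/
noncomputable def WH3b_tr (X : M2) : Matrix Bool Bool ℝ := fun s s' => X (bi s) (bi s')

theorem WH3b_one : WH3b_tr 1 = 1 := by
  ext a b
  cases a <;> cases b <;> simp [WH3b_tr, bi]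

theorem WH3b_mul (X Y : M2) : WH3b_tr (X * Y) = WH3b_tr X * WH3b_tr Y := by
  ext a b
  rw [Matrix.mul_apply, Fintype.sum_bool]
  unfold WH3b_tr
  rw [Matrix.mul_apply, Fin.sum_univ_two]
  rfl

theorem WH3b_sub (l : List M2) : WH3b_tr l.prod = (l.map WH3b_tr).prod := by
  induction l with
  | nil => simp [WH3b_one]
  | cons X l ih => rw [List.map_cons, List.prod_cons, List.prod_cons, WH3b_mul, ih]

theorem WH3b_Dm (t : ℝ) (s s' : Bool) :
    (Dm t).1 (bi s) (bi s') = if s = s' then Real.exp (bs s * t / 2) else 0 := by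
  cases s <;> cases s' <;> simp [Dm, bi, bs, neg_div]

theorem WH3b_entry (hFA4 : FA4_stmt) {J : Type} (w : Word J) (z : PS J) (hz : z ∈ Cone J)
    (i : Fin (w.n + 1)) (s s' : Bool) :
    (Dm (w.t i z) * arcM (w.A i) z.1 : SL(2, ℝ)).1 (bi s) (bi s') = w.mat z i s s' := by
  have h : (Dm (w.t i z) * arcM (w.A i) z.1 : SL(2, ℝ)).1 =
      (Dm (w.t i z)).1 * (arcM (w.A i) z.1).1 := rfl
  rw [h, Matrix.mul_apply, Fin.sum_univ_two]
  have e0 : ∀ s'', (arcM (w.A i) z.1).1 (bi s'') (bi s') =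
      Real.exp ((w.A i).g s'' s' z.1) := fun s'' => hFA4 J (w.A i) z.1 hz s'' s'
  have e1 : (arcM (w.A i) z.1).1 0 (bi s') = Real.exp ((w.A i).g true s' z.1) := e0 true
  have e2 : (arcM (w.A i) z.1).1 1 (bi s') = Real.exp ((w.A i).g false s' z.1) := e0 false
  have d1 : (Dm (w.t i z)).1 (bi s) 0 = if s = true then Real.exp (bs s * w.t i z / 2) else 0 :=
    WH3b_Dm _ s true
  have d2 : (Dm (w.t i z)).1 (bi s) 1 = if s = false then Real.exp (bs s * w.t i z / 2) else 0 :=
    WH3b_Dm _ s false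
  rw [e1, e2, d1, d2]
  unfold Word.mat
  rw [Real.exp_add]
  cases s <;> simp

/-- WH3b -/
theorem WH3b (hFA4 : FA4_stmt) (hTP : Pool.Agent.helper73.AD.TP_stmt)
    (hTD : Pool.Agent.helper73.AD.TD_stmt) : WH3b_stmt := by
  intro J w z hz
  rw [(hTD J w z hz).2, ← hTP, ← hTP, Matrix.trace_fin_two]
  have h : WH3b_tr (List.ofFn (fun i : Fin (w.n + 1) =>
      (Dm (w.t i z) * arcM (w.A i) z.1 : SL(2, ℝ)).1)).prod =
      (List.ofFn (fun i => w.mat z i)).prod := by
    rw [WH3b_sub, List.map_ofFn]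
    congr 2
    funext i
    ext s s'
    exact WH3b_entry hFA4 w z hz i s s'
  rw [← h]
  rfl

end AdSBend
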