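import Pool.Agent.helper73.AD.GW1
import Pool.Agent.helper73.AD.GWL

/-!
Module WH4 of the Wolpert part (project ad): derivative of the length function.
-/

set_option linter.all false

open scoped MatrixGroups LinearAlgebra.Projectivization BigOperators Topology
open Matrix UpperHalfPlane
open Pool.Agent.helper73.AD (PS Word Arc sg Cone)

namespace AdSBend

noncomputable section

open LeafSystem

theorem WH4_cj_mul (g h : SL(2, ℝ)) (X : M2) : cj (g * h) X = cj g (cj h X) := by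
  unfold cj
  have e1 : (g * h).1 = g.1 * h.1 := rfl
  have e2 : ((g * h)⁻¹).1 = (h⁻¹).1 * (g⁻¹).1 := by rw [_root_.mul_inv_rev]; rfl
  rw [e1, e2]
  noncomm_ring

theorem WH4_cj_PEq {g h : SL(2, ℝ)} (hgh : PEq g h) (X : M2) : cj g X = cj h X := by
  rcases hgh with rfl | rfl
  · rfl
  · unfold cj
    have e1 : (-h).1 = -h.1 := rfl
    have e2 : ((-h)⁻¹).1 = -(h⁻¹).1 := by
      rw [show (-h)⁻¹ = -(h⁻¹) from inv_neg]; rfl
    rw [e1, e2]
    noncomm_ring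

theorem WH4_cj_add (g : SL(2, ℝ)) (X Y : M2) : cj g (X + Y) = cj g X + cj g Y := by
  unfold cj; noncomm_ring

theorem WH4_cj_smul (g : SL(2, ℝ)) (t : ℝ) (X : M2) : cj g (t • X) = t • cj g X := by
  unfold cj; rw [mul_smul_comm, smul_mul_assoc]

theorem WH4_cj_trace (g : SL(2, ℝ)) (X : M2) : (cj g X).trace = X.trace := by
  unfold cj
  rw [Matrix.trace_mul_comm, ← mul_assoc]
  have : (g⁻¹).1 * g.1 = 1 := by
    have : (g⁻¹).1 * g.1 = (g⁻¹ * g : SL(2, ℝ)).1 := rfl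
    rw [this, inv_mul_cancel]; rfl
  rw [this, one_mul]

theorem WH4_inv (g : SL(2, ℝ)) : (g⁻¹).1 * g.1 = 1 := by
  have : (g⁻¹).1 * g.1 = (g⁻¹ * g : SL(2, ℝ)).1 := rfl
  rw [this, inv_mul_cancel]; rfl

theorem WH4_ip_comm (X Y : M2) : ip X Y = ip Y X := by
  unfold ip; rw [Matrix.trace_mul_comm]

theorem WH4_ip_add (X Y Z : M2) : ip X (Y + Z) = ip X Y + ip X Z := by
  unfold ip; rw [mul_add, Matrix.trace_add, add_div]

theorem WH4_ip_smul (t : ℝ) (X Y : M2) : ip X (t • Y) = t * ip X Y := by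
  unfold ip; rw [mul_smul_comm, Matrix.trace_smul, smul_eq_mul, mul_div_assoc]

theorem WH4_cj_Dm (t : ℝ) : cj (Dm t) hM = hM := by
  unfold cj
  have e : ((Dm t)⁻¹).1 = !![Real.exp (-(t / 2)), 0; 0, Real.exp (t / 2)] := by
    rw [Matrix.SpecialLinearGroup.coe_inv, Matrix.adjugate_fin_two]
    ext i j
    fin_cases i <;> fin_cases j <;> simp [Dm]
  rw [e]
  have h1 : Real.exp (t / 2) * Real.exp (-(t / 2)) = 1 := by rw [← Real.exp_add]; simp
  have h2 : Real.exp (-(t / 2)) * Real.exp (t / 2) = 1 := by rw [← Real.exp_add]; simp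
  ext i j
  fin_cases i <;> fin_cases j <;>
    simp [Dm, hM, Matrix.mul_apply, Fin.sum_univ_two, h1, h2]

theorem WH4_trace_hM : hM.trace = 0 := by simp [hM, Matrix.trace_fin_two]

theorem WH4_trace_eM : eM.trace = 0 := by simp [eM, Matrix.trace_fin_two]

theorem WH4_trace_arcD {J : Type} (A : Arc J) (q x' : J → ℝ) : (arcD A q x').trace = 0 := by
  cases A with
  | seam a b c => simp [arcD, WH4_trace_eM]
  | wave a b c =>
    simp only [arcD, Matrix.trace_sub, Matrix.trace_smul, WH4_cj_trace, WH4_trace_eM,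
      WH4_trace_hM, smul_zero, sub_zero]

theorem WH4_PEq_mul {a b c d : SL(2, ℝ)} (h : PEq a b) (h' : PEq c d) :
    PEq (a * c) (b * d) := by
  rcases h with rfl | rfl <;> rcases h' with rfl | rfl
  · exact Or.inl rfl
  · right; rw [mul_neg]
  · right; rw [neg_mul]
  · left; rw [neg_mul_neg]

theorem WH4_PEq_symm {a b : SL(2, ℝ)} (h : PEq a b) : PEq b a := by
  rcases h with rfl | rfl
  · exact Or.inl rfl
  · right; rw [neg_neg]

theorem WH4_PEq_trans {a b c : SL(2, ℝ)} (h : PEq a b) (h' : PEq b c) : PEq a c := by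
  rcases h with rfl | rfl <;> rcases h' with rfl | rfl
  · exact Or.inl rfl
  · exact Or.inr rfl
  · exact Or.inr rfl
  · left; rw [neg_neg]

/-- derivative of one step -/
theorem WH4_step (hWH1 : WH1_stmt) {J : Type} (w : Word J) (z z' : PS J) (hz : z ∈ Cone J)
    (i : Fin (w.n + 1)) :
    HasD (fun s : ℝ => (Dm (w.t i (z + s • z')) * arcM (w.A i) (z + s • z').1 : SL(2, ℝ)).1)
      ((1 / 2 : ℝ) • (((z'.2 (w.j i) + w.c i * z'.1 (w.j i)) • hM +
        cj (Dm (w.t i z)) (arcD (w.A i) z.1 z'.1)) *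
          (Dm (w.t i (z + (0 : ℝ) • z')) * arcM (w.A i) (z + (0 : ℝ) • z').1 : SL(2, ℝ)).1)) := by
  set t' : ℝ := z'.2 (w.j i) + w.c i * z'.1 (w.j i) with ht'
  have ht : ∀ s : ℝ, w.t i (z + s • z') = w.t i z + s * t' := by
    intro s
    simp only [Word.t, Prod.fst_add, Prod.snd_add, Prod.smul_fst, Prod.smul_snd, Pi.add_apply,
      Pi.smul_apply, smul_eq_mul, ht']
    ring
  have h1 := hWH1.2 (w.t i z) t'
  have h2 := hWH1.1 J (w.A i) z.1 z'.1 hz
  have h3 := h1.mul h2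
  have e0 : z + (0 : ℝ) • z' = z := by simp
  have e1 : (fun s : ℝ => (Dm (w.t i (z + s • z')) * arcM (w.A i) (z + s • z').1 : SL(2, ℝ)).1) =
      fun s : ℝ => (Dm (w.t i z + s * t')).1 * (arcM (w.A i) (z.1 + s • z'.1)).1 := by
    funext s
    rw [ht s]
    rfl
  rw [e1, e0]
  have e2 : (1 / 2 : ℝ) • ((t' • hM + cj (Dm (w.t i z)) (arcD (w.A i) z.1 z'.1)) *
      (Dm (w.t i z) * arcM (w.A i) z.1 : SL(2, ℝ)).1) =
      (t' / 2) • (hM * (Dm (w.t i z)).1) * (arcM (w.A i) (z.1 + (0 : ℝ) • z'.1)).1 +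
      (Dm (w.t i z + 0 * t')).1 * ((1 / 2 : ℝ) • (arcD (w.A i) z.1 z'.1 *
        (arcM (w.A i) z.1).1)) := by
    have e3 : z.1 + (0 : ℝ) • z'.1 = z.1 := by simp
    have e4 : w.t i z + 0 * t' = w.t i z := by simp
    rw [e3, e4]
    have e5 : (Dm (w.t i z) * arcM (w.A i) z.1 : SL(2, ℝ)).1 =
        (Dm (w.t i z)).1 * (arcM (w.A i) z.1).1 := rfl
    rw [e5, add_mul]
    have e6 : cj (Dm (w.t i z)) (arcD (w.A i) z.1 z'.1) *
        ((Dm (w.t i z)).1 * (arcM (w.A i) z.1).1) =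
        (Dm (w.t i z)).1 * (arcD (w.A i) z.1 z'.1 * (arcM (w.A i) z.1).1) := by
      unfold cj
      calc _ = (Dm (w.t i z)).1 * arcD (w.A i) z.1 z'.1 * (((Dm (w.t i z))⁻¹).1 *
            (Dm (w.t i z)).1) * (arcM (w.A i) z.1).1 := by noncomm_ring
        _ = _ := by rw [WH4_inv]; noncomm_ring
    rw [e6]
    simp only [smul_add, smul_mul_assoc, mul_smul_comm, smul_smul, mul_assoc]
    congr 2
    ring
  rw [e2]
  exact h3

/-- WH4 -/
theorem WH4 (hTW1 : TW1_stmt) (hFC4 : FC4_stmt) (hFC7 : FC7_stmt) (hFB4 : FB4_stmt)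
    (hWA1 : WA1_stmt) (hWH1 : WH1_stmt) (hWH2 : WH2_stmt) (hWH3 : WH3_stmt)
    (hWH3b : WH3b_stmt) (hBF : Pool.Agent.helper73.AD.BF_stmt)
    (hGS : Pool.Agent.helper73.AD.GS_stmt) (hHX1 : HX1_stmt) (hFA0 : FA0_stmt) : WH4_stmt := by
  intro Γ J K _ _ c z'
  have hΓ := c.hΓ
  have hlL : c.l ∈ c.X.S'.L := c.X.D'.memP c.k
  have hlc : IsClosedGeodesic Γ c.l.1 c.l.2 := c.X.S'.closed _ hlL
  have hz : c.z ∈ Cone J := ((hFB4 Γ hΓ c.X.S J c.X.D c.ρ c.adm).2.2.1 c.z c.coord).1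
  obtain ⟨htr, htrF, hHl, _⟩ := hFC7 Γ hΓ c.X.S J c.X.D c.l c.w c.W c.ρ c.z hlc c.adm c.coord
  obtain ⟨F, G, M, t, hF, hG, hFG, hGF, hFper, hMper, htper, htM, hMpos, hcp⟩ :=
    hFC4 Γ hΓ c.X.S J c.X.D c.l c.w c.W c.ρ c.z hlc c.adm c.coord
  obtain ⟨_, _, _, hpos⟩ := hTW1
  obtain ⟨hpos1, _, _, hlpos, _⟩ := hpos (c.ρ (gen Γ c.l)) htr
  set g : SL(2, ℝ) := c.ρ (gen Γ c.l) with hg
  set X : Fin (c.w.n + 1) → M2 := fun i =>
    (z'.2 (c.w.j i) + c.w.c i * z'.1 (c.w.j i)) • c.a (c.W.A (i.val : ℤ)) +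
      c.mu z'.1 i.val (c.w.A i) with hX
  set Φ : ℕ → SL(2, ℝ) := fun m => G (m : ℤ) * Rm with hΦ
  set δ : Fin (c.w.n + 1) → M2 := fun i => (z'.2 (c.w.j i) + c.w.c i * z'.1 (c.w.j i)) • hM +
        cj (Dm (c.w.t i c.z)) (arcD (c.w.A i) c.z.1 z'.1) with hδ
  set Q : Fin (c.w.n + 1) → ℝ → M2 := fun i s =>
    (Dm (c.w.t i (c.z + s • z')) * arcM (c.w.A i) (c.z + s • z').1 : SL(2, ℝ)).1 with hQ
  have e0 : c.z + (0 : ℝ) • z' = c.z := by simp
  have hQ0 : ∀ i, Q i 0 = (Dm (c.w.t i c.z) * arcM (c.w.A i) c.z.1 : SL(2, ℝ)).1 := by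
    intro i
    simp only [hQ, e0]
  have hstep : ∀ i, HasD (Q i) ((1 / 2 : ℝ) • (δ i * Q i 0)) := fun i =>
    WH4_step hWH1 c.w c.z z' hz i
  -- the trace is the function F
  have hFtr : ∀ s : ℝ, c.z + s • z' ∈ Cone J →
      ((List.ofFn (fun i => Q i s)).prod).trace = c.w.F (c.z + s • z') := fun s hs =>
    hWH3b J c.w (c.z + s • z') hs
  have hF2 : ∀ z ∈ Cone J, 2 < c.w.F z := fun z hz => (hBF J c.w z hz).1
  have htr0 : 0 < ((List.ofFn (fun i => Q i 0)).prod).trace := by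
    rw [hFtr 0 (by rw [e0]; exact hz), e0]
    linarith [hF2 c.z hz]
  have hΦs : ∀ i : Fin (c.w.n + 1), (Φ (i.val + 1)).1 = (Φ i.val).1 * Q i 0 ∨
      (Φ (i.val + 1)).1 = -((Φ i.val).1 * Q i 0) := by
    intro i
    have h1 : PEq (Φ (i.val + 1)) (Φ i.val * (Dm (c.w.t i c.z) * arcM (c.w.A i) c.z.1)) := by
      have h2 := hGF (i.val : ℤ)
      have h3 := hFG (i.val : ℤ)
      rw [(htM i).2] at h2
      rw [(htM i).1] at h3
      have h4 : PEq (F (i.val : ℤ) * arcM (c.w.A i) c.z.1)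
          ((G (i.val : ℤ) * Rm * Dm (c.w.t i c.z)) * arcM (c.w.A i) c.z.1) :=
        WH4_PEq_mul h3 (Or.inl rfl)
      have h5 := WH4_PEq_trans h2 h4
      simp only [hΦ]
      push_cast
      rw [← mul_assoc]
      exact h5
    have e1 : (Φ i.val * (Dm (c.w.t i c.z) * arcM (c.w.A i) c.z.1)).1 = (Φ i.val).1 * Q i 0 := by
      rw [hQ0]; rfl
    rcases h1 with h | h
    · left; rw [h, e1]
    · right; rw [h, ← e1]; rfl
  have hΦn : PEq (Φ (c.w.n + 1)) (g * Φ 0) := by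
    have h1 := hFper 0
    have h2 := hFG 0
    have h3 := hFG ((0 : ℤ) + c.w.n + 1)
    have h4 := htper 0
    rw [h4] at h3
    -- G (n+1) Rm = F (n+1) Dm (-t)
    have k1 : PEq (G ((0 : ℤ) + c.w.n + 1) * Rm) (F ((0 : ℤ) + c.w.n + 1) * (Dm (t 0))⁻¹) := by
      have := WH4_PEq_mul (WH4_PEq_symm h3) (Or.inl rfl : PEq (Dm (t 0))⁻¹ (Dm (t 0))⁻¹)
      rwa [mul_assoc (G ((0 : ℤ) + c.w.n + 1) * Rm), mul_inv_cancel, mul_one] at this
    have k2 : PEq (F ((0 : ℤ) + c.w.n + 1) * (Dm (t 0))⁻¹) (g * F 0 * (Dm (t 0))⁻¹) :=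
      WH4_PEq_mul h1 (Or.inl rfl)
    have k3 : PEq (g * F 0 * (Dm (t 0))⁻¹) (g * (G 0 * Rm)) := by
      have := WH4_PEq_mul (WH4_PEq_mul (Or.inl rfl : PEq g g) h2)
        (Or.inl rfl : PEq (Dm (t 0))⁻¹ (Dm (t 0))⁻¹)
      rwa [mul_assoc g (G 0 * Rm * Dm (t 0)), mul_assoc (G 0 * Rm), mul_inv_cancel, mul_one]
        at this
    have k4 := WH4_PEq_trans k1 (WH4_PEq_trans k2 k3)
    have e1 : ((0 : ℤ) + c.w.n + 1) = (((c.w.n + 1 : ℕ)) : ℤ) := by push_cast; ring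
    rw [e1] at k4
    simpa [hΦ] using k4
  have hder := hWH3 c.w.n Q δ Φ g hstep hΦs hΦn htr0
  -- the vectors
  have hvec : ∀ i : Fin (c.w.n + 1), cj (Φ i.val) (δ i) = X i := by
    intro i
    have hFi : IsSeamFrame (c.ρ (gen Γ (c.W.A (i.val : ℤ)))) (c.ρ (gen Γ (c.W.U (i.val : ℤ))))
        (F (i.val : ℤ)) := hF (i.val : ℤ)
    have h3 := hFG (i.val : ℤ)
    rw [(htM i).1] at h3
    have h5 : PEq (F (i.val : ℤ)) (Φ i.val * Dm (c.w.t i c.z)) := h3
    simp only [hδ, hX]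
    rw [WH4_cj_add, WH4_cj_smul, ← WH4_cj_mul, ← WH4_cj_PEq h5]
    have h6 : cj (Φ i.val) hM = c.a (c.W.A (i.val : ℤ)) := by
      have h7 : cj (Φ i.val) hM = cj (F (i.val : ℤ)) hM := by
        rw [WH4_cj_PEq h5]
        exact (by rw [WH4_cj_mul (Φ i.val) (Dm (c.w.t i c.z)), WH4_cj_Dm] :
          cj (Φ i.val * Dm (c.w.t i c.z)) hM = cj (Φ i.val) hM).symm
      rw [h7]
      obtain ⟨x, hx⟩ : ∃ x, c.X.S.Hex (c.W.A (i.val : ℤ)) (c.W.U (i.val : ℤ)) x := by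
        obtain ⟨r, h | h⟩ := c.W.seamU (i.val : ℤ)
        · exact ⟨r, h⟩
        · obtain ⟨h1, h2, _⟩ := hHX1 Γ hΓ c.X.S
          exact ⟨_, h2 _ _ _ (h1 _ _ _ h)⟩
      obtain ⟨_, wa2⟩ := hWA1 Γ hΓ c.X.S c.ρ c.adm
      obtain ⟨_, _, _, _, _, _, _, _, _, _, _, hlast⟩ := wa2 _ _ _ hx
      exact (hlast _ hFi).1.symm
    rw [h6, hWH2 Γ J K c z'.1 i _ hFi]
  have hX0 : ∀ i, (X i).trace = 0 := by
    intro i
    rw [← hvec i, WH4_cj_trace]
    simp only [hδ]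
    rw [Matrix.trace_add, Matrix.trace_smul, WH4_cj_trace, WH4_trace_hM, WH4_trace_arcD]
    simp
  have hsum : (1 / 2 : ℝ) * ∑ i : Fin (c.w.n + 1), (cj (Φ i.val) (δ i) * (pos g).1).trace =
      Real.sinh (len g / 2) * ∑ i, ip (c.a c.l) (X i) := by
    rw [Finset.mul_sum, Finset.mul_sum]
    refine Finset.sum_congr rfl fun i _ => ?_
    rw [hvec i, hpos1, mul_add, Matrix.trace_add, mul_smul_comm, mul_smul_comm, mul_one,
      Matrix.trace_smul, Matrix.trace_smul, hX0 i, WH4_ip_comm]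
    have : c.a c.l = axis g := rfl
    rw [this]
    unfold ip
    simp only [smul_eq_mul]
    ring
  rw [hsum] at hder
  -- derivative of F and H along the line
  have hline : HasDerivAt (fun s : ℝ => c.z + s • z') z' 0 := by
    have := ((hasDerivAt_id (0 : ℝ)).smul_const z').const_add c.z
    simpa using this
  have hcone : ∀ᶠ s : ℝ in 𝓝 0, c.z + s • z' ∈ Cone J := by
    have hc : ContinuousAt (fun s : ℝ => c.z + s • z') 0 := hline.continuousAt
    have ho : IsOpen (Cone J) := by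
      have : Cone J = ⋂ j, {z : PS J | 0 < z.1 j} := by ext z; simp [Cone]
      rw [this]
      refine isOpen_iInter_of_finite fun j => ?_
      exact isOpen_lt continuous_const ((continuous_apply j).comp continuous_fst)
    exact hc.eventually (ho.mem_nhds (by
      show c.z + (0 : ℝ) • z' ∈ Cone J
      rw [e0]; exact hz))
  have hdF : HasDerivAt (fun s : ℝ => c.w.F (c.z + s • z'))
      (Real.sinh (len g / 2) * ∑ i, ip (c.a c.l) (X i)) 0 := by
    refine hder.congr_of_eventuallyEq ?_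
    filter_upwards [hcone] with s hs
    exact (hFtr s hs).symm
  have hHd : HasFDerivAt c.w.H (fderiv ℝ c.w.H c.z) (c.z + (0 : ℝ) • z') := by
    rw [e0]
    have h1 : ContDiffOn ℝ 2 c.w.H (Cone J) := (hGS J).2.2.2.2 c.w hF2
    have ho : IsOpen (Cone J) := by
      have : Cone J = ⋂ j, {z : PS J | 0 < z.1 j} := by ext z; simp [Cone]
      rw [this]
      refine isOpen_iInter_of_finite fun j => ?_
      exact isOpen_lt continuous_const ((continuous_apply j).comp continuous_fst)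
    have h2 : DifferentiableAt ℝ c.w.H c.z :=
      (h1.contDiffAt (ho.mem_nhds hz)).differentiableAt (by norm_num)
    exact h2.hasFDerivAt
  have hdH : HasDerivAt (fun s : ℝ => c.w.H (c.z + s • z')) (fderiv ℝ c.w.H c.z z') 0 :=
    HasFDerivAt.comp_hasDerivAt (l := c.w.H) (f := fun s : ℝ => c.z + s • z') (0 : ℝ) hHd hline
  have hFH : HasDerivAt (fun s : ℝ => 2 * Real.cosh (c.w.H (c.z + s • z') / 2))
      (2 * (Real.sinh (c.w.H (c.z + (0 : ℝ) • z') / 2) * (fderiv ℝ c.w.H c.z z' / 2))) 0 :=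
    (hdH.div_const 2).cosh.const_mul 2
  have hFH' : HasDerivAt (fun s : ℝ => c.w.F (c.z + s • z'))
      (2 * (Real.sinh (c.w.H (c.z + (0 : ℝ) • z') / 2) * (fderiv ℝ c.w.H c.z z' / 2))) 0 := by
    refine hFH.congr_of_eventuallyEq ?_
    filter_upwards [hcone] with s hs
    exact ((hBF J c.w _ hs).2.2.1).symm
  have huniq := hdF.unique hFH'
  rw [e0, hHl] at huniq
  have hsh : 0 < Real.sinh (len g / 2) := Real.sinh_pos_iff.2 (by linarith)
  have hfin : fderiv ℝ c.w.H c.z z' = ∑ i, ip (c.a c.l) (X i) := by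
    have : Real.sinh (len g / 2) * (fderiv ℝ c.w.H c.z z') =
        Real.sinh (len g / 2) * ∑ i, ip (c.a c.l) (X i) := by
      rw [huniq]; ring
    exact mul_left_cancel₀ hsh.ne' this
  rw [hfin]
  refine Finset.sum_congr rfl fun i _ => ?_
  simp only [hX]
  rw [WH4_ip_add, WH4_ip_smul]

end

end AdSBend
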