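import Pool.Agent.helper73.AD.GW1

/-!
Module WV5 of the Wolpert part (project ad): the coordinates are continuously differentiable.
-/

set_option linter.all false

open scoped MatrixGroups LinearAlgebra.Projectivization BigOperators Topology
open Matrix UpperHalfPlane
open Pool.Agent.helper73.AD (PS Word Arc sg Cone)

namespace AdSBend

noncomputable section

open LeafSystem

/-- a matrix function with entries of class C2 -/
def WV5_CD {K : Type} [Fintype K] (F : (K → ℝ) → M2) : Prop :=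
  ∀ i j, ContDiff ℝ 2 (fun T => F T i j)

variable {K : Type} [Fintype K] {F G : (K → ℝ) → M2}

theorem WV5_mul (hF : WV5_CD F) (hG : WV5_CD G) : WV5_CD (fun T => F T * G T) := by
  intro i j
  have h : (fun T => (F T * G T) i j) = fun T => F T i 0 * G T 0 j + F T i 1 * G T 1 j := by
    funext T; simp [Matrix.mul_apply, Fin.sum_univ_two]
  rw [h]
  exact ((hF i 0).mul (hG 0 j)).add ((hF i 1).mul (hG 1 j))

theorem WV5_sub (hF : WV5_CD F) (hG : WV5_CD G) : WV5_CD (fun T => F T - G T) :=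
  fun i j => (hF i j).sub (hG i j)

theorem WV5_smul {x : (K → ℝ) → ℝ} (hx : ContDiff ℝ 2 x) (hF : WV5_CD F) :
    WV5_CD (fun T => x T • F T) := fun i j => hx.mul (hF i j)

theorem WV5_const (X : M2) : WV5_CD (fun _ : K → ℝ => X) := fun i j => contDiff_const

theorem WV5_ip (hF : WV5_CD F) (hG : WV5_CD G) : ContDiff ℝ 2 (fun T => ip (F T) (G T)) := by
  have h : (fun T => ip (F T) (G T)) = fun T => ((F T * G T) 0 0 + (F T * G T) 1 1) / 2 := by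
    funext T; simp [ip, Matrix.trace_fin_two]
  rw [h]
  exact ((WV5_mul hF hG 0 0).add (WV5_mul hF hG 1 1)).div_const 2

theorem WV5_smV (hF : WV5_CD F) (hG : WV5_CD G) (h : ∀ T, ip (F T) (G T) < -1) :
    WV5_CD (fun T => smV (F T) (G T)) := by
  have h1 := WV5_ip hF hG
  have h2 : ContDiff ℝ 2 (fun T => ip (F T) (G T) ^ 2 - 1) := (h1.pow 2).sub contDiff_const
  have h3 : ∀ T, 0 < ip (F T) (G T) ^ 2 - 1 := fun T => by nlinarith [h T]
  have h4 : ContDiff ℝ 2 (fun T => Real.sqrt (ip (F T) (G T) ^ 2 - 1)) :=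
    h2.sqrt (fun T => (h3 T).ne')
  have h5 : ContDiff ℝ 2 (fun T => (Real.sqrt (ip (F T) (G T) ^ 2 - 1))⁻¹) :=
    h4.inv (fun T => (Real.sqrt_pos.2 (h3 T)).ne')
  exact WV5_smul h5 (WV5_sub (WV5_mul hF hG) (WV5_smul h1 (WV5_const 1)))

theorem WV5_hex {Γ : Subgroup SL(2, ℝ)} (hΓ : IsClosedSurfaceGroup Γ) (hHX1 : HX1_stmt)
    (S : LeafSystem Γ) (p u : Bd × Bd) (h : S.Seam p u) : ∃ x, S.Hex p u x := by
  obtain ⟨r, h | h⟩ := h
  · exact ⟨r, h⟩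
  · obtain ⟨h1, h2, _⟩ := hHX1 Γ hΓ S
    exact ⟨_, h2 _ _ _ (h1 _ _ _ h)⟩

section

variable {Γ : Subgroup SL(2, ℝ)} {J : Type} {X : Setup Γ J K} {f : Bd ≃ Bd}
  {r : SL(2, ℝ) → SL(2, ℝ)} {z₀ : ℍ} {A : (K → ℝ) → ℍ → SL(2, ℝ)}

theorem WV5_a [DecidableEq K] (hΓ : IsClosedSurfaceGroup Γ) (hGM1 : GM1_stmt) (hWV1 : WV1_stmt)
    (hX : X.Def f r z₀ A) (hadm : ∀ T, X.S.AdmS (fun γ => A T (γ • z₀) * r γ))
    (p : Bd × Bd) (hp : p ∈ X.S.L) :
    WV5_CD (fun T => aV Γ (fun γ => A T (γ • z₀) * r γ) p) ∧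
      ContDiff ℝ 2 (fun T => xL Γ (fun γ => A T (γ • z₀) * r γ) p) := by
  have hg := hGM1 Γ hΓ p (X.S.closed p hp)
  have h := (hWV1 Γ hΓ J K X f r z₀ A hX (gen Γ p) hg.1).2 (fun T => (hadm T).1.2.1 p hp)
  exact ⟨h.2, h.1⟩

theorem WV5_ip_lt (hΓ : IsClosedSurfaceGroup Γ) (hWA1 : WA1_stmt) (S : LeafSystem Γ)
    (ρ : SL(2, ℝ) → SL(2, ℝ)) (h : S.AdmS ρ) (p q x : Bd × Bd) (hh : S.Hex p q x) :
    ip (aV Γ ρ p) (aV Γ ρ q) < -1 := by
  obtain ⟨h1, h2, _⟩ := (hWA1 Γ hΓ S ρ h).2 p q x hh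
  rw [h1]
  have := Real.one_lt_cosh.2 h2.ne'
  linarith

theorem WV5_s [DecidableEq K] (hΓ : IsClosedSurfaceGroup Γ) (hGM1 : GM1_stmt) (hWA1 : WA1_stmt)
    (hWV1 : WV1_stmt) (hX : X.Def f r z₀ A)
    (hadm : ∀ T, X.S.AdmS (fun γ => A T (γ • z₀) * r γ))
    (p q x : Bd × Bd) (hh : X.S.Hex p q x) :
    WV5_CD (fun T => sV Γ (fun γ => A T (γ • z₀) * r γ) p q) :=
  WV5_smV (WV5_a hΓ hGM1 hWV1 hX hadm p hh.1.1).1 (WV5_a hΓ hGM1 hWV1 hX hadm q hh.1.2.1).1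
    (fun T => WV5_ip_lt hΓ hWA1 X.S _ (hadm T) p q x hh)

end

/-- WV5 -/
theorem WV5 (hGM1 : GM1_stmt) (hHX1 : HX1_stmt) (hWA1 : WA1_stmt) (hWV1 : WV1_stmt)
    (hWV6 : WV6_stmt) : WV5_stmt := by
  intro Γ hΓ J K _ _ _ _ X f r z₀ A hX Z hadm hco
  have h1 : ContDiff ℝ 1 (fun T => (Z T).1) := by
    rw [contDiff_pi]
    intro j
    have e : (fun T => (Z T).1 j) =
        fun T => xL Γ (fun γ => A T (γ • z₀) * r γ) (X.D.P j) := by
      funext T; exact (hco T).1 j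
    rw [e]
    exact (WV5_a hΓ hGM1 hWV1 hX hadm _ (X.D.memP j)).2.of_le (by norm_num)
  have h2 : ContDiff ℝ 1 (fun T => (Z T).2) := by
    rw [contDiff_pi]
    intro j
    have e : (fun T => (Z T).2 j) = fun T =>
        twC (sV Γ (fun γ => A T (γ • z₀) * r γ) (X.D.P j) (X.D.U j))
          (aV Γ (fun γ => A T (γ • z₀) * r γ) (sw (X.D.P j)))
          (sV Γ (fun γ => A T (γ • z₀) * r γ) (sw (X.D.P j)) (X.D.V j)) := by
      funext T
      exact (hWV6 Γ hΓ X.S J X.D _ (Z T) (hadm T) (hco T) j).1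
    rw [e]
    obtain ⟨x, hx⟩ := WV5_hex hΓ hHX1 X.S _ _ (X.D.seamU j)
    obtain ⟨y, hy⟩ := WV5_hex hΓ hHX1 X.S _ _ (X.D.seamV j)
    have k1 := WV5_s hΓ hGM1 hWA1 hWV1 hX hadm _ _ _ hx
    have k2 := WV5_s hΓ hGM1 hWA1 hWV1 hX hadm _ _ _ hy
    have k3 := (WV5_a hΓ hGM1 hWV1 hX hadm _ hy.1.1).1
    have k4 := (WV5_ip k1 (WV5_mul k3 k2)).neg
    exact (Real.contDiff_arsinh.comp (k4.of_le (by norm_num)))
  exact h1.prodMk h2

end

end AdSBend
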