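import Pool.Agent.helper73.AD.GW1
import Pool.Agent.helper73.AD.GWL
import Pool.Agent.helper84.AW.WV5

/-!
Module WV4 of the Wolpert part (project ad): the velocity structure of the twist deformation.
-/

set_option linter.all false

open scoped MatrixGroups LinearAlgebra.Projectivization BigOperators Topology
open Matrix UpperHalfPlane
open Pool.Agent.helper73.AD (PS Word Arc sg Cone)

namespace AdSBend

noncomputable section

open LeafSystem

theorem WV4_line {K : Type} [Fintype K] {F : (K → ℝ) → ℝ} (h : ContDiff ℝ 2 F) (T e : K → ℝ) :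
    HasDerivAt (fun s : ℝ => F (T + s • e)) (fderiv ℝ F T e) 0 := by
  have hline : HasDerivAt (fun s : ℝ => T + s • e) e 0 := by
    have := ((hasDerivAt_id (0 : ℝ)).smul_const e).const_add T
    simpa using this
  have hd : HasFDerivAt F (fderiv ℝ F T) (T + (0 : ℝ) • e) := by
    have e0 : T + (0 : ℝ) • e = T := by simp
    rw [e0]
    exact (h.differentiable (by norm_num) T).hasFDerivAt
  exact HasFDerivAt.comp_hasDerivAt (l := F) (f := fun s : ℝ => T + s • e) (0 : ℝ) hd hline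

theorem WV4_lineM {K : Type} [Fintype K] {F : (K → ℝ) → M2} (h : WV5_CD F) (T e : K → ℝ) :
    ∃ F' : M2, HasD (fun s : ℝ => F (T + s • e)) F' :=
  ⟨fun i j => fderiv ℝ (fun T => F T i j) T e, fun i j => WV4_line (h i j) T e⟩

/-- explicit derivative of the seam length -/
def WV4_D (a b c a' b' c' : ℝ) : ℝ :=
  (Real.sqrt (((Real.cosh (c / 2) + Real.cosh (a / 2) * Real.cosh (b / 2)) /
    (Real.sinh (a / 2) * Real.sinh (b / 2))) ^ 2 - 1))⁻¹ *
  (((Real.sinh (c / 2) * (c' / 2) + (Real.sinh (a / 2) * (a' / 2) * Real.cosh (b / 2) +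
      Real.cosh (a / 2) * (Real.sinh (b / 2) * (b' / 2)))) *
      (Real.sinh (a / 2) * Real.sinh (b / 2)) -
    (Real.cosh (c / 2) + Real.cosh (a / 2) * Real.cosh (b / 2)) *
      (Real.cosh (a / 2) * (a' / 2) * Real.sinh (b / 2) +
        Real.sinh (a / 2) * (Real.cosh (b / 2) * (b' / 2)))) /
    (Real.sinh (a / 2) * Real.sinh (b / 2)) ^ 2)

theorem WV4_one_lt {a b : ℝ} (ha : 0 < a) (hb : 0 < b) (c : ℝ) :
    1 < (Real.cosh (c / 2) + Real.cosh (a / 2) * Real.cosh (b / 2)) /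
    (Real.sinh (a / 2) * Real.sinh (b / 2)) := by
  have h1 : 0 < Real.sinh (a / 2) := Real.sinh_pos_iff.2 (by linarith)
  have h2 : 0 < Real.sinh (b / 2) := Real.sinh_pos_iff.2 (by linarith)
  rw [one_lt_div (mul_pos h1 h2)]
  have h3 : Real.cosh (a / 2) * Real.cosh (b / 2) - Real.sinh (a / 2) * Real.sinh (b / 2) =
      Real.cosh (a / 2 - b / 2) := (Real.cosh_sub _ _).symm
  have h4 := Real.cosh_pos (a / 2 - b / 2)
  have h5 := Real.cosh_pos (c / 2)
  linarith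

theorem WV4_sd {a b c : ℝ → ℝ} {a' b' c' : ℝ} (ha : HasDerivAt a a' 0) (hb : HasDerivAt b b' 0)
    (hc : HasDerivAt c c' 0) (ha0 : 0 < a 0) (hb0 : 0 < b 0) :
    HasDerivAt (fun s => sd (a s) (b s) (c s)) (WV4_D (a 0) (b 0) (c 0) a' b' c') 0 := by
  have h1 : 0 < Real.sinh (a 0 / 2) := Real.sinh_pos_iff.2 (by linarith)
  have h2 : 0 < Real.sinh (b 0 / 2) := Real.sinh_pos_iff.2 (by linarith)
  have n1 := ((hc.div_const 2).cosh).add (((ha.div_const 2).cosh).mul ((hb.div_const 2).cosh))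
  have n2 := ((ha.div_const 2).sinh).mul ((hb.div_const 2).sinh)
  have n3 := n1.div n2 (mul_pos h1 h2).ne'
  have n4 := (Real.hasDerivAt_arcosh (WV4_one_lt ha0 hb0 (c 0)))
  have n5 := n4.comp (0 : ℝ) n3
  exact n5

theorem WV4_dsd {a b : ℝ} (ha : 0 < a) (hb : 0 < b) (c a' b' c' : ℝ) :
    dsd a b c a' b' c' = WV4_D a b c a' b' c' := by
  have hl : ∀ x x' : ℝ, HasDerivAt (fun s : ℝ => x + s * x') x' 0 := by
    intro x x'
    simpa using ((hasDerivAt_id (0 : ℝ)).mul_const x').const_add x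
  have h := WV4_sd (hl a a') (hl b b') (hl c c') (by simpa using ha) (by simpa using hb)
  simp only [zero_mul, add_zero] at h
  exact h.deriv

theorem WV4_unique {a s a' s' nu nu' : M2} (hWV3a : WV3a_stmt) (ha : a.trace = 0)
    (hs : s.trace = 0) (haa : a * a = 1) (hss : s * s = 1) (has : a * s = -(s * a))
    (h : IsVel a s a' s' nu) (h' : IsVel a s a' s' nu') : nu = nu' :=
  hWV3a.1 a s a' s' nu nu' ha hs haa hss has h h'

theorem WV4_ip_sub (X Y Z : M2) : ip (X - Y) Z = ip X Z - ip Y Z := by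
  unfold ip; rw [sub_mul, Matrix.trace_sub, sub_div]

theorem WV4_ip_add (X Y Z : M2) : ip (X + Y) Z = ip X Z + ip Y Z := by
  unfold ip; rw [add_mul, Matrix.trace_add, add_div]

theorem WV4_ip_neg (X Z : M2) : ip (-X) Z = -ip X Z := by
  unfold ip; rw [neg_mul, Matrix.trace_neg, neg_div]

theorem WV4_ip_smul (t : ℝ) (X Z : M2) : ip (t • X) Z = t * ip X Z := by
  unfold ip; rw [smul_mul_assoc, Matrix.trace_smul, smul_eq_mul, mul_div_assoc]

theorem WV4_cj_axis (hTW1 : TW1_stmt) (g : SL(2, ℝ)) (h : 2 < |trc g|) :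
    cj g (axis g) = axis g := by
  have h1 := (hTW1.2.1 g g 0 h).2
  rw [mul_assoc, mul_inv_cancel, mul_one] at h1
  exact h1.symm

/-- WV4 -/
theorem WV4 (hGM1 : GM1_stmt) (hHX1 : HX1_stmt) (hTW1 : TW1_stmt) (hWA0 : WA0_stmt)
    (hWA1 : WA1_stmt) (hWF1 : WF1_stmt) (hWV1 : WV1_stmt) (hWV2 : WV2_stmt)
    (hWV3a : WV3a_stmt) (hWV3b : WV3b_stmt) (hWV3c : WV3c_stmt) (hWV6 : WV6_stmt) :
    WV4_stmt := by
  intro Γ J K _ _ _ _ c f r A Z T hX hadm hco hρ
  have hΓ := c.hΓ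
  set e : K → ℝ := Pi.single c.k 1 with he
  set R : ℝ → SL(2, ℝ) → SL(2, ℝ) := fun u γ => A (T + u • e) (γ • c.z₀) * r γ with hR
  have hR0 : R 0 = c.ρ := by
    rw [hρ]; funext γ; simp [hR]
  have hRad : ∀ u, c.X.S.AdmS (R u) := fun u => hadm (T + u • e)
  have wa : ∀ u, _ := fun u => hWA1 Γ hΓ c.X.S (R u) (hRad u)
  obtain ⟨hx1, hx2, hx3, hx4, _⟩ := hHX1 Γ hΓ c.X.S
  obtain ⟨_, f2, f3, f4⟩ := hWF1 Γ J K c
  -- derivatives of the vectors
  have dA : ∀ p ∈ c.X.S.L, ∃ a' : M2, HasD (fun u => aV Γ (R u) p) a' := fun p hp =>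
    WV4_lineM (WV5_a hΓ hGM1 hWV1 hX hadm p hp).1 T e
  have dS : ∀ p q x, c.X.S.Hex p q x → ∃ s' : M2, HasD (fun u => sV Γ (R u) p q) s' :=
    fun p q x hh => WV4_lineM (WV5_s hΓ hGM1 hWA1 hWV1 hX hadm p q x hh) T e
  -- derivative of the lengths
  set xd : Bd × Bd → ℝ := fun p => -ip (c.fx c.z₀ (gen Γ p • c.z₀)) (c.a p) with hxd
  have hfx : ∀ z z', flux Γ c.X.S' c.X.D'.cls (fun γ => A T (γ • c.z₀) * r γ) c.k z z' =
      c.fx z z' := by
    intro z z'; rw [← hρ]; rfl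
  have dL : ∀ p ∈ c.X.S.L, HasDerivAt (fun u => xL Γ (R u) p) (xd p) 0 := by
    intro p hp
    have hg := hGM1 Γ hΓ p (c.X.S.closed p hp)
    have h := (hWV2 Γ hΓ J K c.X f r c.z₀ A hX T c.k).2 (gen Γ p) hg.1
      (fun T => (hadm T).1.2.1 p hp)
    rw [hfx] at h
    have e1 : axis (A T (gen Γ p • c.z₀) * r (gen Γ p)) = c.a p := by
      show _ = axis (c.ρ (gen Γ p))
      rw [hρ]
    rw [e1] at h
    exact h
  have dG : ∀ γ ∈ Γ, HasD (fun u => (R u γ).1)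
      ((1 / 2 : ℝ) • ((-c.fx c.z₀ (γ • c.z₀)) * (R 0 γ).1)) := by
    intro γ hγ
    have h := (hWV2 Γ hΓ J K c.X f r c.z₀ A hX T c.k).1 γ hγ
    rw [hfx] at h
    have e1 : (-(1 / 2) : ℝ) • (c.fx c.z₀ (γ • c.z₀) * (A T (γ • c.z₀) * r γ).1) =
        (1 / 2 : ℝ) • ((-c.fx c.z₀ (γ • c.z₀)) * (R 0 γ).1) := by
      have e2 : R 0 γ = A T (γ • c.z₀) * r γ := by rw [hR0, hρ]
      rw [e2, neg_mul, smul_neg]
      exact neg_smul (1 / 2 : ℝ) (c.fx c.z₀ (γ • c.z₀) * (A T (γ • c.z₀) * r γ).1)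
    rw [e1] at h
    exact h
  -- orthonormality
  have orth : ∀ u p q x, c.X.S.Hex p q x → (aV Γ (R u) p).trace = 0 ∧
      (sV Γ (R u) p q).trace = 0 ∧ aV Γ (R u) p * aV Γ (R u) p = 1 ∧
      sV Γ (R u) p q * sV Γ (R u) p q = 1 ∧
      aV Γ (R u) p * sV Γ (R u) p q = -(sV Γ (R u) p q * aV Γ (R u) p) := by
    intro u p q x hh
    obtain ⟨w1, w2⟩ := wa u
    obtain ⟨v1, v2, _⟩ := w1 p hh.1.1
    obtain ⟨_, _, v3, v4, _, v5, _⟩ := w2 p q x hh
    exact ⟨v1, v3, v2, v4, v5⟩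
  -- the velocities
  have hex : ∀ p q, c.X.S.Seam p q → ∃ x, c.X.S.Hex p q x := fun p q h =>
    WV5_hex hΓ hHX1 c.X.S p q h
  have hnu : ∃ nu : Bd × Bd → Bd × Bd → M2, ∀ p q x, c.X.S.Hex p q x →
      ∀ a' s', HasD (fun u => aV Γ (R u) p) a' → HasD (fun u => sV Γ (R u) p q) s' →
      IsVel (aV Γ (R 0) p) (sV Γ (R 0) p q) a' s' (nu p q) := by
    have : ∀ p q, ∃ nu : M2, ∀ x, c.X.S.Hex p q x →
      ∀ a' s', HasD (fun u => aV Γ (R u) p) a' → HasD (fun u => sV Γ (R u) p q) s' →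
      IsVel (aV Γ (R 0) p) (sV Γ (R 0) p q) a' s' nu := by
      intro p q
      by_cases h : ∃ x, c.X.S.Hex p q x
      · obtain ⟨x, hx⟩ := h
        obtain ⟨a', ha'⟩ := dA p hx.1.1
        obtain ⟨s', hs'⟩ := dS p q x hx
        obtain ⟨nu, hnu⟩ := hWV3a.2 (fun u => aV Γ (R u) p) (fun u => sV Γ (R u) p q) a' s'
          (fun u => by
            obtain ⟨o1, o2, o3, o4, o5⟩ := orth u p q x hx
            exact ⟨o1, o2, o3, o4, o5⟩) ha' hs'
        refine ⟨nu, fun y hy a'' s'' h1 h2 => ?_⟩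
        rw [h1.unique ha', h2.unique hs']
        exact hnu
      · exact ⟨0, fun x hx => absurd ⟨x, hx⟩ h⟩
    choose nu hnu using this
    exact ⟨nu, fun p q x => hnu p q x⟩
  obtain ⟨nu, hnu⟩ := hnu
  have fx_self : ∀ z, c.X.S'.OffPt z → c.fx z z = 0 := by
    intro z hz
    have := f3 z z z hz hz hz
    simpa using this
  have hρ2 : ∀ p ∈ c.X.S.L, 2 < |trc (c.ρ (gen Γ p))| := fun p hp => c.adm.1.2.1 p hp
  let V : c.Vel :=
  { nu := nu
    xd := xd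
    xd_eq := by
      intro p hp z hz
      have hg := hGM1 Γ hΓ p (c.X.S.closed p hp)
      obtain ⟨ho1, hfz⟩ := f4 (gen Γ p) hg.1 c.z₀ z c.off hz
      have ho2 := (f4 (gen Γ p) hg.1 z z hz hz).1
      have e1 : c.fx z (gen Γ p • z) = c.fx z c.z₀ + c.fx c.z₀ (gen Γ p • c.z₀) +
          c.fx (gen Γ p • c.z₀) (gen Γ p • z) := by
        rw [f3 z c.z₀ (gen Γ p • z) hz c.off ho2,
          f3 c.z₀ (gen Γ p • c.z₀) (gen Γ p • z) c.off ho1 ho2, add_assoc]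
      have e2 : c.fx z c.z₀ = -c.fx c.z₀ z := by
        have := f3 z c.z₀ z hz c.off hz
        rw [fx_self z hz] at this
        exact eq_neg_of_add_eq_zero_left this.symm
      have e3 : ip (cj (c.ρ (gen Γ p)) (c.fx c.z₀ z)) (c.a p) = ip (c.fx c.z₀ z) (c.a p) := by
        have h1 : cj (c.ρ (gen Γ p)) (c.a p) = c.a p := WV4_cj_axis hTW1 _ (hρ2 p hp)
        calc ip (cj (c.ρ (gen Γ p)) (c.fx c.z₀ z)) (c.a p)
            = ip (cj (c.ρ (gen Γ p)) (c.fx c.z₀ z)) (cj (c.ρ (gen Γ p)) (c.a p)) := by rw [h1]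
          _ = _ := hWA0.1 _ _ _
      show -ip (c.fx c.z₀ (gen Γ p • c.z₀)) (c.a p) = -ip (c.fx z (gen Γ p • z)) (c.a p)
      rw [e1, WV4_ip_add, WV4_ip_add, e2, hfz, e3, WV4_ip_neg]
      ring
    xd_ga := by
      intro γ hγ p hp
      have h1 := dL (ga γ p) (c.X.S.inv γ hγ p hp)
      have h2 := dL p hp
      have e1 : (fun u => xL Γ (R u) (ga γ p)) = fun u => xL Γ (R u) p := by
        funext u; exact (((wa u).1 p hp).2.2.2.2.2 γ hγ).2
      rw [e1] at h1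
      exact h1.unique h2
    xd_sw := by
      intro p hp
      have h1 := dL (sw p) (c.X.S.swap p hp)
      have h2 := dL p hp
      have e1 : (fun u => xL Γ (R u) (sw p)) = fun u => xL Γ (R u) p := by
        funext u; exact ((wa u).1 p hp).2.2.2.2.1
      rw [e1] at h1
      exact h1.unique h2
    nu_tr := by
      intro p q x hh
      obtain ⟨a', ha'⟩ := dA p hh.1.1
      obtain ⟨s', hs'⟩ := dS p q x hh
      exact (hnu p q x hh a' s' ha' hs').1
    nu_ga := by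
      intro γ hγ p q hseam
      obtain ⟨x, hh⟩ := hex p q hseam
      obtain ⟨a', ha'⟩ := dA p hh.1.1
      obtain ⟨s', hs'⟩ := dS p q x hh
      have hh' := hx4 γ hγ p q x hh
      have hv : (-c.fx c.z₀ (γ • c.z₀)).trace = 0 := by
        obtain ⟨ho, _⟩ := f4 γ hγ c.z₀ c.z₀ c.off c.off
        rw [Matrix.trace_neg, (f2 c.z₀ (γ • c.z₀) c.off ho).2.2, neg_zero]
      obtain ⟨a₁, s₁, ha₁, hs₁, hvel⟩ := hWV3b (fun u => aV Γ (R u) p) (fun u => sV Γ (R u) p q)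
        a' s' (nu p q) (-c.fx c.z₀ (γ • c.z₀)) (fun u => R u γ) ha' hs'
        (hnu p q x hh a' s' ha' hs') hv (dG γ hγ)
      have ea : ∀ u, aV Γ (R u) (ga γ p) = cj (R u γ) (aV Γ (R u) p) := fun u =>
        (((wa u).1 p hh.1.1).2.2.2.2.2 γ hγ).1
      have es : ∀ u, sV Γ (R u) (ga γ p) (ga γ q) = cj (R u γ) (sV Γ (R u) p q) := fun u => by
        obtain ⟨_, _, _, _, _, _, _, _, _, _, h, _⟩ := (wa u).2 p q x hh
        exact h γ hγ
      have ha₂ : HasD (fun u => aV Γ (R u) (ga γ p)) a₁ := by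
        have : (fun u => aV Γ (R u) (ga γ p)) = fun u => cj (R u γ) (aV Γ (R u) p) :=
          funext ea
        rw [this]; exact ha₁
      have hs₂ : HasD (fun u => sV Γ (R u) (ga γ p) (ga γ q)) s₁ := by
        have : (fun u => sV Γ (R u) (ga γ p) (ga γ q)) = fun u => cj (R u γ) (sV Γ (R u) p q) :=
          funext es
        rw [this]; exact hs₁
      have h1 := hnu _ _ _ hh' a₁ s₁ ha₂ hs₂
      have hvel' : IsVel (aV Γ (R 0) (ga γ p)) (sV Γ (R 0) (ga γ p) (ga γ q)) a₁ s₁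
          (-c.fx c.z₀ (γ • c.z₀) + cj (R 0 γ) (nu p q)) := by
        rw [ea 0, es 0]; exact hvel
      obtain ⟨o1, o2, o3, o4, o5⟩ := orth 0 _ _ _ hh'
      have h2 := WV4_unique hWV3a o1 o2 o3 o4 o5 h1 hvel'
      rw [h2, hR0]
      abel
    nu_rot := by
      intro p q x hh
      obtain ⟨a', ha'⟩ := dA p hh.1.1
      obtain ⟨s', hs'⟩ := dS p q x hh
      have hh' := hx2 p q x hh
      obtain ⟨⟨s₁, hs₁, hvel⟩, _, _⟩ := hWV3c (fun u => aV Γ (R u) p)
        (fun u => sV Γ (R u) p q) a' s' (nu p q) (fun u => xL Γ (R u) p) (xd p)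
        (fun u => by
          obtain ⟨o1, o2, o3, o4, o5⟩ := orth u p q x hh
          exact ⟨o1, o2, o3, o4, o5⟩) ha' hs' (dL p hh.1.1) (hnu p q x hh a' s' ha' hs')
      have es : ∀ u, sV Γ (R u) p x = Real.cosh (xL Γ (R u) p / 2) • sV Γ (R u) p q +
          Real.sinh (xL Γ (R u) p / 2) • (aV Γ (R u) p * sV Γ (R u) p q) := fun u => by
        obtain ⟨_, _, _, _, _, _, _, _, h, _⟩ := (wa u).2 p q x hh
        exact h
      have hs₂ : HasD (fun u => sV Γ (R u) p x) s₁ := by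
        have : (fun u => sV Γ (R u) p x) = fun u =>
            Real.cosh (xL Γ (R u) p / 2) • sV Γ (R u) p q +
            Real.sinh (xL Γ (R u) p / 2) • (aV Γ (R u) p * sV Γ (R u) p q) := funext es
        rw [this]; exact hs₁
      have h1 := hnu _ _ _ hh' a' s₁ ha' hs₂
      obtain ⟨o1, o2, o3, o4, o5⟩ := orth 0 _ _ _ hh'
      have hvel' : IsVel (aV Γ (R 0) p) (sV Γ (R 0) p x) a' s₁
          (nu p q + (xd p / 2) • aV Γ (R 0) p) := by
        rw [es 0]; exact hvel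
      have h2 := WV4_unique hWV3a o1 o2 o3 o4 o5 h1 hvel'
      rw [h2, hR0]
      exact add_sub_cancel_left _ _
    nu_seam := by
      intro p q x hh
      obtain ⟨a', ha'⟩ := dA p hh.1.1
      obtain ⟨s', hs'⟩ := dS p q x hh
      have hqL : q ∈ c.X.S.L := hh.1.2.1
      have hxL : x ∈ c.X.S.L := hh.2.1.2.1
      -- the hexagon seen from `q`
      obtain ⟨y, hh'⟩ : ∃ y, c.X.S.Hex q p y := hex q p ⟨x, Or.inr hh⟩
      have hpos : ∀ p ∈ c.X.S.L, 0 < xL Γ (R 0) p := fun p hp => ((wa 0).1 p hp).2.2.2.1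
      have hsd : HasDerivAt (fun u => sd (xL Γ (R u) p) (xL Γ (R u) q) (xL Γ (R u) x))
          (ds Γ c.ρ xd p q x) 0 := by
        have h := WV4_sd (dL p hh.1.1) (dL q hqL) (dL x hxL) (hpos p hh.1.1) (hpos q hqL)
        rw [← WV4_dsd (hpos p hh.1.1) (hpos q hqL)] at h
        unfold ds
        rw [← hR0]
        exact h
      obtain ⟨_, ⟨a₁, ha₁, hvel⟩, _⟩ := hWV3c (fun u => aV Γ (R u) p)
        (fun u => sV Γ (R u) p q) a' s' (nu p q)
        (fun u => sd (xL Γ (R u) p) (xL Γ (R u) q) (xL Γ (R u) x)) (ds Γ c.ρ xd p q x)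
        (fun u => by
          obtain ⟨o1, o2, o3, o4, o5⟩ := orth u p q x hh
          exact ⟨o1, o2, o3, o4, o5⟩) ha' hs' hsd (hnu p q x hh a' s' ha' hs')
      have ea : ∀ u, aV Γ (R u) q =
          -(Real.cosh (sd (xL Γ (R u) p) (xL Γ (R u) q) (xL Γ (R u) x)) • aV Γ (R u) p) +
          Real.sinh (sd (xL Γ (R u) p) (xL Γ (R u) q) (xL Γ (R u) x)) •
            (aV Γ (R u) p * sV Γ (R u) p q) := fun u => by
        obtain ⟨_, _, _, _, _, _, _, h, _⟩ := (wa u).2 p q x hh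
        exact h
      have es : ∀ u, sV Γ (R u) q p = -sV Γ (R u) p q := fun u => by
        obtain ⟨_, _, _, _, h, _⟩ := (wa u).2 p q x hh
        exact h
      have ha₂ : HasD (fun u => aV Γ (R u) q) a₁ := by
        have : (fun u => aV Γ (R u) q) = fun u =>
          -(Real.cosh (sd (xL Γ (R u) p) (xL Γ (R u) q) (xL Γ (R u) x)) • aV Γ (R u) p) +
          Real.sinh (sd (xL Γ (R u) p) (xL Γ (R u) q) (xL Γ (R u) x)) •
            (aV Γ (R u) p * sV Γ (R u) p q) := funext ea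
        rw [this]; exact ha₁
      have hs₂ : HasD (fun u => sV Γ (R u) q p) (-s') := by
        have : (fun u => sV Γ (R u) q p) = fun u => -sV Γ (R u) p q := funext es
        rw [this]; exact hs'.neg
      have h1 := hnu _ _ _ hh' a₁ (-s') ha₂ hs₂
      obtain ⟨o1, o2, o3, o4, o5⟩ := orth 0 _ _ _ hh'
      have hvel' : IsVel (aV Γ (R 0) q) (sV Γ (R 0) q p) a₁ (-s')
          (nu p q + ds Γ c.ρ xd p q x • sV Γ (R 0) p q) := by
        rw [ea 0, es 0]; exact hvel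
      have h2 := WV4_unique hWV3a o1 o2 o3 o4 o5 h1 hvel'
      rw [h2, hR0]
      exact add_sub_cancel_left _ _ }
  refine ⟨V, fun j => ⟨?_, ?_⟩⟩
  · have e1 : (fun s : ℝ => (Z (T + s • e)).1 j) = fun s => xL Γ (R s) (c.X.D.P j) := by
      funext s; exact (hco (T + s • e)).1 j
    rw [e1]
    exact dL _ (c.X.D.memP j)
  · obtain ⟨x, hx⟩ := hex _ _ (c.X.D.seamU j)
    obtain ⟨y, hy⟩ := hex _ _ (c.X.D.seamV j)
    have w6 : ∀ u, _ := fun u => hWV6 Γ hΓ c.X.S J c.X.D (R u) (Z (T + u • e)) (hRad u)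
      (hco (T + u • e)) j
    -- the twist parameter is differentiable
    have k1 := WV5_s hΓ hGM1 hWA1 hWV1 hX hadm _ _ _ hx
    have k2 := WV5_s hΓ hGM1 hWA1 hWV1 hX hadm _ _ _ hy
    have k3 := (WV5_a hΓ hGM1 hWV1 hX hadm _ hy.1.1).1
    have k4 := (WV5_ip k1 (WV5_mul k3 k2)).neg
    have k5 := (Real.contDiff_arsinh (n := 2)).comp k4
    have k6 := WV4_line k5 T e
    obtain ⟨t', ht'⟩ : ∃ t', HasDerivAt (fun s : ℝ => (Z (T + s • e)).2 j) t' 0 := by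
      refine ⟨_, (k6.congr_of_eventuallyEq (Filter.Eventually.of_forall fun s => ?_))⟩
      exact (w6 s).1
    obtain ⟨a', ha'⟩ := dA _ hy.1.1
    obtain ⟨s', hs'⟩ := dS _ _ _ hy
    obtain ⟨_, _, ⟨s₁, hs₁, hvel⟩⟩ := hWV3c (fun u => aV Γ (R u) (sw (c.X.D.P j)))
      (fun u => sV Γ (R u) (sw (c.X.D.P j)) (c.X.D.V j)) a' s'
      (nu (sw (c.X.D.P j)) (c.X.D.V j)) (fun u => (Z (T + u • e)).2 j) t'
      (fun u => by
        obtain ⟨o1, o2, o3, o4, o5⟩ := orth u _ _ _ hy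
        exact ⟨o1, o2, o3, o4, o5⟩) ha' hs' ht' (hnu _ _ _ hy a' s' ha' hs')
    have ea : ∀ u, aV Γ (R u) (c.X.D.P j) = -aV Γ (R u) (sw (c.X.D.P j)) := fun u => by
      rw [((wa u).1 _ (c.X.D.memP j)).2.2.1, neg_neg]
    have ha₂ : HasD (fun u => aV Γ (R u) (c.X.D.P j)) (-a') := by
      have : (fun u => aV Γ (R u) (c.X.D.P j)) = fun u => -aV Γ (R u) (sw (c.X.D.P j)) :=
        funext ea
      rw [this]; exact ha'.neg
    have hs₂ : HasD (fun u => sV Γ (R u) (c.X.D.P j) (c.X.D.U j)) s₁ := by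
      have : (fun u => sV Γ (R u) (c.X.D.P j) (c.X.D.U j)) = fun u =>
        -(Real.cosh ((Z (T + u • e)).2 j) • sV Γ (R u) (sw (c.X.D.P j)) (c.X.D.V j)) +
          Real.sinh ((Z (T + u • e)).2 j) • (aV Γ (R u) (sw (c.X.D.P j)) *
            sV Γ (R u) (sw (c.X.D.P j)) (c.X.D.V j)) := funext fun u => (w6 u).2
      rw [this]; exact hs₁
    have h1 := hnu _ _ _ hx (-a') s₁ ha₂ hs₂
    obtain ⟨o1, o2, o3, o4, o5⟩ := orth 0 _ _ _ hx
    have hvel' : IsVel (aV Γ (R 0) (c.X.D.P j)) (sV Γ (R 0) (c.X.D.P j) (c.X.D.U j)) (-a') s₁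
        (nu (sw (c.X.D.P j)) (c.X.D.V j) - t' • aV Γ (R 0) (sw (c.X.D.P j))) := by
      rw [ea 0, (w6 0).2]; exact hvel
    have h2 := WV4_unique hWV3a o1 o2 o3 o4 o5 h1 hvel'
    have e2 : ip (V.nu (c.X.D.P j) (c.X.D.U j) - V.nu (sw (c.X.D.P j)) (c.X.D.V j))
        (c.a (c.X.D.P j)) = t' := by
      show ip (nu (c.X.D.P j) (c.X.D.U j) - nu (sw (c.X.D.P j)) (c.X.D.V j))
        (c.a (c.X.D.P j)) = t'
      have e3 : c.a (c.X.D.P j) = aV Γ (R 0) (c.X.D.P j) := by rw [hR0]; rfl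
      have e4 : aV Γ (R 0) (sw (c.X.D.P j)) = -aV Γ (R 0) (c.X.D.P j) := by
        rw [ea 0, neg_neg]
      rw [h2, e3, e4]
      have e5 : nu (sw (c.X.D.P j)) (c.X.D.V j) - t' • -aV Γ (R 0) (c.X.D.P j) -
          nu (sw (c.X.D.P j)) (c.X.D.V j) = t' • aV Γ (R 0) (c.X.D.P j) := by
        rw [smul_neg]; abel
      rw [e5, WV4_ip_smul]
      have e6 : ip (aV Γ (R 0) (c.X.D.P j)) (aV Γ (R 0) (c.X.D.P j)) = 1 := by
        unfold ip
        rw [o3]
        simp [Matrix.trace_fin_two]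
      rw [e6, mul_one]
    rw [e2]
    exact ht'

end

end AdSBend
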